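import Mathlib
import Pool.Agent.R957.Mmpp.Defs
import Pool.Agent.T9h98.Mmpp.Final

/-!
# Q2 of MP_af8c33_pr: every MMPP has squared coefficient of variation at least one

For every Markov-modulated Poisson process, `c² ≥ 1`, with equality only for Poisson processes.
Idea: the mean times to the first event `g = (-C)⁻¹ 1` solve `D g - Q g = 1`. Integrating against
`π` gives `π (D g) = 1`, and integrating `g (D g - Q g) = g` gives `π g ≥ π (D g²)`, because the
Dirichlet form of `Q` is nonnegative (no reversibility is needed). Cauchy-Schwarz finishes.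
-/

namespace Pool.Agent.Results.MP_af8c33_pr.SquaredVariation

open Matrix Pool.R957.Mmpp Pool.Agent.T9h98.Mmpp MeasureTheory Set

/-- **Every MMPP satisfies `c² ≥ 1`.** Let `M` be an MMPP with matrices `(C, D)`, `C = Q - D`, let
`piv` be the stationary vector of its generator `Q` and let `alpha = π D / (π D 1)`.
* `C` is nonsingular and `(π C 1) (π C⁻¹ 1) ≥ 1`, with equality iff all rates are equal.
* The inter-event time `T`, with `P(T > t) = α e^{Ct} 1`, has finite second moment and squared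
  coefficient of variation `Var T / (E T)² ≥ 1`, with equality iff all rates are equal.
* (The mean comparison and a substitute for the stochastic order of Q1.) For all `s ≥ 0`,
  `∫ e^{-st} P(T₁^α > t) dt ≤ ∫ e^{-st} P(T₁^π > t) dt`. -/
theorem result (p : ℕ) (M : MMPP p) (piv : Fin p → ℝ) (h : M.IsStat piv) :
    (IsUnit M.C.det ∧
      1 ≤ (piv ⬝ᵥ (M.C *ᵥ 1)) * (piv ⬝ᵥ (M.C⁻¹ *ᵥ 1)) ∧
      ((piv ⬝ᵥ (M.C *ᵥ 1)) * (piv ⬝ᵥ (M.C⁻¹ *ᵥ 1)) = 1 ↔ ∀ i j, M.lam i = M.lam j)) ∧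
    (IntegrableOn (fun t => surv M (alpha M piv) t) (Ioi 0) ∧
      IntegrableOn (fun t => 2 * t * surv M (alpha M piv) t) (Ioi 0) ∧
      0 < mean M (alpha M piv) ∧ 1 ≤ scv M (alpha M piv) ∧
      (scv M (alpha M piv) = 1 ↔ ∀ i j, M.lam i = M.lam j)) ∧
    (∀ s : ℝ, 0 ≤ s →
      IntegrableOn (fun t => Real.exp (-(s * t)) * surv M (alpha M piv) t) (Ioi 0) ∧
      IntegrableOn (fun t => Real.exp (-(s * t)) * surv M piv t) (Ioi 0) ∧
      ∫ t in Ioi (0 : ℝ), Real.exp (-(s * t)) * surv M (alpha M piv) t ≤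
        ∫ t in Ioi (0 : ℝ), Real.exp (-(s * t)) * surv M piv t) := by
  have hD := pD_pos M h
  have hdet : IsUnit M.C.det := by
    have := det_ne M h (le_refl (0 : ℝ))
    rw [zero_smul, zero_sub, Matrix.det_neg] at this
    exact isUnit_of_mul_isUnit_right this
  have hR : R M 0 = -M.C⁻¹ := by
    unfold R
    rw [zero_smul, zero_sub]
    apply Matrix.inv_eq_right_inv
    rw [neg_mul_neg, Matrix.mul_nonsing_inv _ hdet]
  have hC1 : piv ⬝ᵥ (M.C *ᵥ 1) = -(piv ⬝ᵥ (M.D *ᵥ 1)) := by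
    rw [Matrix.dotProduct_mulVec, Matrix.dotProduct_mulVec, pD_eq M h, neg_dotProduct, neg_neg]
  have hprod : (piv ⬝ᵥ (M.C *ᵥ 1)) * (piv ⬝ᵥ (M.C⁻¹ *ᵥ 1)) =
      (piv ⬝ᵥ (M.D *ᵥ 1)) * (piv ⬝ᵥ (R M 0 *ᵥ 1)) := by
    rw [hC1, hR, Matrix.neg_mulVec, dotProduct_neg]; ring
  have hk0 : 1 ≤ (piv ⬝ᵥ (M.D *ᵥ 1)) * (piv ⬝ᵥ (R M 0 *ᵥ 1)) := by
    have := key M h (le_refl (0 : ℝ))
    rwa [zero_add] at this
  have hscv : scv M (alpha M piv) =
      2 * ((piv ⬝ᵥ (M.D *ᵥ 1)) * (piv ⬝ᵥ (R M 0 *ᵥ 1))) - 1 := by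
    unfold scv
    rw [second_alpha M h, mean_alpha M h]
    field_simp
  refine ⟨⟨?_, ?_, ?_⟩, ⟨?_, ?_, ?_, ?_, ?_⟩, fun s hs => ⟨?_, ?_, ?_⟩⟩
  · exact hdet
  · rw [hprod]; exact hk0
  · rw [hprod]; exact key_eq M h
  · have := integrableOn_dot M h (le_refl (0 : ℝ)) (alpha M piv) 0
    simpa [surv_eq0] using this
  · have h1 : IntegrableOn (fun t => 2 * (t ^ 1 * (alpha M piv ⬝ᵥ vv M 0 t))) (Ioi 0) :=
      (integrableOn_dot M h le_rfl (alpha M piv) 1).const_mul 2
    refine h1.congr_fun (fun t _ => ?_) measurableSet_Ioi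
    simp only [pow_one, surv_eq0]
    ring
  · rw [mean_alpha M h]; exact inv_pos.2 hD
  · rw [hscv]; linarith
  · rw [hscv, ← key_eq M h]
    constructor <;> intro h1 <;> linarith
  · have := integrableOn_dot M h hs (alpha M piv) 0
    simpa [surv_eq] using this
  · have := integrableOn_dot M h hs piv 0
    simpa [surv_eq] using this
  · simp_rw [surv_eq]
    rw [integral_dot M h hs, integral_dot M h hs, alpha_R M h hs, piv_one M h,
      inv_mul_le_iff₀ hD]
    have := key M h hs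
    nlinarith

end Pool.Agent.Results.MP_af8c33_pr.SquaredVariation
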